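import Pool.Agent.H943R5.GC.FinalB

set_option autoImplicit false

/-!
# The gauge size of the set of oracles with an optimal proof system for tautologies

Wraps `Pool.Agent.H943R5.GC` (helper943 and others), which builds on the random oracle library of
helpers 543, 628 and 673 and on the gauge library of helper620.
-/

namespace Pool.Agent.Results.MP_0532f7_lc.GaugeSize

open Pool.Agent.H628R3.RO
open Pool.Agent.H620R2 (Gauge.Null)

/-- The logarithm to base `2`, four times. -/
noncomputable def log4 (N : ℕ) : ℝ :=
  Real.logb 2 (Real.logb 2 (Real.logb 2 (Real.logb 2 (N : ℝ))))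

/-- Relative to `A` some `coNP`-complete set has an optimal proof system. -/
def HasComplete (A : Oracle) : Prop :=
  ∃ L : Set (List Bool), IsCoNP A L ∧ CoNPHardRel A L ∧ ∃ P, IsOptimal A L P

/-- The set of the oracles with an optimal proof system of this kind is null for all gauges that
are bounded infinitely often (in particular it has measure zero), but it is not null for any gauge
above `(log log log log N) ^ s`, `s > 1`. -/
theorem result (f : ℕ → ℝ) :
    (∀ C : ℝ, (∃ᶠ N : ℕ in Filter.atTop, f N ≤ C) → Gauge.Null f {A | HasComplete A}) ∧
    ∀ s : ℝ, 1 < s → (∀ᶠ N : ℕ in Filter.atTop, log4 N ^ s ≤ f N) →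
      ¬ Gauge.Null f {A | HasComplete A} :=
  Pool.Agent.H943R5.GC.g_opt f

end Pool.Agent.Results.MP_0532f7_lc.GaugeSize
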